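import Mathlib

/-! # The Collatz map on `F_2[x]`: the accelerated map, offsets, injectivity -/

set_option autoImplicit false

namespace Pool.Agent.Q74.FC

open Polynomial Finset

/-- the Collatz map on `F_2[x]` -/
noncomputable def T (f : (ZMod 2)[X]) : (ZMod 2)[X] := if f.coeff 0 = 1 then (X + 1) * f + 1 else f.divX

/-- the accelerated map: `((x+1) f + 1) / x` or `f / x` -/
noncomputable def S (f : (ZMod 2)[X]) : (ZMod 2)[X] := if f.coeff 0 = 1 then ((X + 1) * f + 1).divX else f.divX

/-- the constant term, as a natural number -/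
noncomputable def par (f : (ZMod 2)[X]) : ℕ := if f.coeff 0 = 1 then 1 else 0

theorem zmod2 (a : ZMod 2) : a = 0 ∨ a = 1 := by
  revert a; decide

theorem par_le (f : (ZMod 2)[X]) : par f ≤ 1 := by unfold par; split_ifs <;> simp

theorem par_cases (f : (ZMod 2)[X]) : (par f = 0 ∧ f.coeff 0 = 0) ∨ (par f = 1 ∧ f.coeff 0 = 1) := by
  unfold par
  rcases zmod2 (f.coeff 0) with h | h
  · left; simp [h]
  · right; simp [h]

theorem X_mul_S (f : (ZMod 2)[X]) : X * S f = (X + 1) ^ par f * f + C (par f : ZMod 2) := by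
  unfold S
  rcases par_cases f with ⟨h1, h2⟩ | ⟨h1, h2⟩
  · rw [if_neg (by rw [h2]; decide), h1]
    have h := divX_mul_X_add f
    rw [h2, map_zero, add_zero] at h
    rw [pow_zero, one_mul, Nat.cast_zero, map_zero, add_zero, mul_comm]
    exact h
  · rw [if_pos h2, h1]
    have h := divX_mul_X_add ((X + 1) * f + 1)
    have h3 : ((X + 1) * f + 1 : (ZMod 2)[X]).coeff 0 = 0 := by
      rw [coeff_add, mul_coeff_zero, coeff_add, coeff_X_zero, coeff_one_zero, h2]
      decide
    rw [h3, map_zero, add_zero] at h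
    rw [pow_one, Nat.cast_one, map_one, mul_comm]
    exact h

theorem T_even {f : (ZMod 2)[X]} (h : par f = 0) : T f = S f := by
  unfold T S
  rcases par_cases f with ⟨_, h2⟩ | ⟨h1, _⟩
  · rw [if_neg (by rw [h2]; decide), if_neg (by rw [h2]; decide)]
  · omega

theorem T_odd {f : (ZMod 2)[X]} (h : par f = 1) : T (T f) = S f := by
  rcases par_cases f with ⟨h1, _⟩ | ⟨_, h2⟩
  · omega
  · have h3 : ((X + 1) * f + 1 : (ZMod 2)[X]).coeff 0 = 0 := by
      rw [coeff_add, mul_coeff_zero, coeff_add, coeff_X_zero, coeff_one_zero, h2]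
      decide
    have h4 : T f = (X + 1) * f + 1 := by unfold T; rw [if_pos h2]
    rw [h4]
    unfold T S
    rw [if_neg (by rw [h3]; decide), if_pos h2]

/-- number of odd terms among the first `n` of the accelerated orbit -/
noncomputable def odds : ℕ → (ZMod 2)[X] → ℕ
  | 0, _ => 0
  | n + 1, f => odds n f + par (S^[n] f)

theorem odds_le (n : ℕ) (f : (ZMod 2)[X]) : odds n f ≤ n := by
  induction n with
  | zero => simp [odds]
  | succ n ih => have := par_le (S^[n] f); simp only [odds]; omega

/-- `n` accelerated steps are `n + odds n f` steps of `T` -/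
theorem iter_T (n : ℕ) (f : (ZMod 2)[X]) : T^[n + odds n f] f = S^[n] f := by
  induction n with
  | zero => simp [odds]
  | succ n ih =>
    rw [Function.iterate_succ_apply', ← ih]
    rcases par_cases (S^[n] f) with ⟨h1, _⟩ | ⟨h1, _⟩
    · have e : n + 1 + odds (n + 1) f = (n + odds n f) + 1 := by simp only [odds, h1]; ring
      rw [e, Function.iterate_succ_apply', ih, T_even h1]
    · have e : n + 1 + odds (n + 1) f = ((n + odds n f) + 1) + 1 := by simp only [odds, h1]; ring
      rw [e, Function.iterate_succ_apply', Function.iterate_succ_apply', ih, T_odd h1]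

/-- the offsets -/
noncomputable def R : ℕ → (ZMod 2)[X] → (ZMod 2)[X]
  | 0, _ => 0
  | n + 1, f => (X + 1) ^ par (S^[n] f) * R n f + C (par (S^[n] f) : ZMod 2) * X ^ n

theorem main_formula (n : ℕ) (f : (ZMod 2)[X]) : X ^ n * S^[n] f = (X + 1) ^ odds n f * f + R n f := by
  induction n with
  | zero => simp [odds, R]
  | succ n ih =>
    rw [Function.iterate_succ_apply', pow_succ, mul_assoc, X_mul_S, mul_add, mul_left_comm, ih]
    simp only [odds, R]
    rw [pow_add]
    ring

theorem X_add_one_ne : (X + 1 : (ZMod 2)[X]) ≠ 0 := by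
  have h : (X + C 1 : (ZMod 2)[X]) ≠ 0 := X_add_C_ne_zero 1
  rwa [map_one] at h

theorem deg_X1 : (X + 1 : (ZMod 2)[X]).degree = 1 := by
  have h : (X + C 1 : (ZMod 2)[X]).degree = 1 := degree_X_add_C 1
  rwa [map_one] at h

theorem deg_pow (b : ℕ) (f : (ZMod 2)[X]) : ((X + 1) ^ b * f).degree = (b : WithBot ℕ) + f.degree := by
  rw [degree_mul, degree_pow, deg_X1, nsmul_one]

theorem R_degree (n : ℕ) (f : (ZMod 2)[X]) : (R n f).degree < (n : WithBot ℕ) := by
  induction n with
  | zero => simp only [R, degree_zero]; exact WithBot.bot_lt_coe _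
  | succ n ih =>
    simp only [R]
    refine lt_of_le_of_lt (degree_add_le _ _) (max_lt ?_ ?_)
    · rw [deg_pow]
      have h1 : ((par (S^[n] f) : ℕ) : WithBot ℕ) ≤ 1 := by exact_mod_cast par_le _
      by_cases h : R n f = 0
      · rw [h, degree_zero, WithBot.add_bot]
        exact WithBot.bot_lt_coe _
      · rw [degree_eq_natDegree h] at ih ⊢
        have h2 := par_le (S^[n] f)
        have h3 : (R n f).natDegree < n := by exact_mod_cast ih
        exact_mod_cast (by omega : par (S^[n] f) + (R n f).natDegree < n + 1)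
    · refine lt_of_le_of_lt (degree_C_mul_X_pow_le n _) ?_
      exact_mod_cast Nat.lt_succ_self n

/-- INJECTIVITY -/
theorem diff_degree {n b : ℕ} {f g : (ZMod 2)[X]} (h : S^[n] f = S^[n] g) (hf : odds n f = b) (hg : odds n g = b) :
    (f - g).degree < ((n - b : ℕ) : WithBot ℕ) := by
  have h1 := main_formula n f
  have h2 := main_formula n g
  rw [hf] at h1
  rw [hg, ← h] at h2
  have h3 : (X + 1) ^ b * (f - g) = R n g - R n f := by
    rw [mul_sub]
    have : (X + 1) ^ b * f + R n f = (X + 1) ^ b * g + R n g := by rw [← h1, ← h2]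
    linear_combination this
  have h4 : ((X + 1) ^ b * (f - g)).degree < (n : WithBot ℕ) := by
    rw [h3]
    exact lt_of_le_of_lt (degree_sub_le _ _) (max_lt (R_degree n g) (R_degree n f))
  rw [deg_pow] at h4
  have hb : b ≤ n := by rw [← hf]; exact odds_le n f
  by_cases hfg : f - g = 0
  · rw [hfg, degree_zero]; exact WithBot.bot_lt_coe _
  · rw [degree_eq_natDegree hfg] at h4 ⊢
    have h5 : b + (f - g).natDegree < n := by exact_mod_cast h4
    exact_mod_cast (by omega : (f - g).natDegree < n - b)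

/-- equal parities give congruence modulo `x^n` -/
theorem par_inj {n : ℕ} {f g : (ZMod 2)[X]} (h : ∀ i < n, par (S^[i] f) = par (S^[i] g)) :
    X ^ n ∣ f - g := by
  have h1 : ∀ m ≤ n, odds m f = odds m g ∧ R m f = R m g := by
    intro m
    induction m with
    | zero => intro _; simp [odds, R]
    | succ m ih =>
      intro hm
      obtain ⟨a, b⟩ := ih (by omega)
      simp only [odds, R]
      rw [a, b, h m (by omega)]
      exact ⟨rfl, rfl⟩
  obtain ⟨a, b⟩ := h1 n le_rfl
  have h2 := main_formula n f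
  have h3 := main_formula n g
  rw [a, b] at h2
  have h4 : X ^ n * (S^[n] f - S^[n] g) = (X + 1) ^ odds n g * (f - g) := by
    rw [mul_sub, mul_sub, h2, h3]; ring
  have h5 : X ^ n ∣ (X + 1) ^ odds n g * (f - g) := ⟨_, h4.symm⟩
  have h6 : IsCoprime (X ^ n : (ZMod 2)[X]) ((X + 1) ^ odds n g) := by
    apply IsCoprime.pow
    exact ⟨-1, 1, by ring⟩
  exact h6.dvd_of_dvd_mul_left h5

/-! ### degrees -/

theorem odd_ne_zero {f : (ZMod 2)[X]} (h : par f = 1) : f ≠ 0 := by
  rintro rfl
  unfold par at h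
  simp at h

theorem eq_one_of_natDegree {f : (ZMod 2)[X]} (hf : f ≠ 0) (h : f.natDegree = 0) : f = 1 := by
  rw [eq_C_of_natDegree_eq_zero h] at hf ⊢
  rcases zmod2 (f.coeff 0) with h1 | h1
  · rw [h1, map_zero] at hf
    exact absurd rfl hf
  · rw [h1, map_one]

theorem S_one : S 1 = 1 := by
  have h : par (1 : (ZMod 2)[X]) = 1 := by unfold par; simp
  have h1 := X_mul_S 1
  rw [h, pow_one, Nat.cast_one, map_one, mul_one, add_assoc] at h1
  have h2 : (1 + 1 : (ZMod 2)[X]) = 0 := by
    rw [← map_one (C : ZMod 2 →+* (ZMod 2)[X]), ← map_add]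
    have : (1 + 1 : ZMod 2) = 0 := by decide
    rw [this, map_zero]
  rw [h2, add_zero] at h1
  exact mul_left_cancel₀ X_ne_zero (h1.trans (mul_one X).symm)

theorem S_ne_zero {f : (ZMod 2)[X]} (hf : f ≠ 0) : S f ≠ 0 ∧ (S f).natDegree + 1 = f.natDegree + par f := by
  have h := X_mul_S f
  rcases par_cases f with ⟨h1, h2⟩ | ⟨h1, h2⟩
  · rw [h1, pow_zero, one_mul, Nat.cast_zero, map_zero, add_zero] at h
    have h3 : S f ≠ 0 := by
      intro h4
      rw [h4, mul_zero] at h
      exact hf h.symm
    refine ⟨h3, ?_⟩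
    have h4 := natDegree_X_mul h3
    rw [h] at h4
    rw [h4, h1]
  · by_cases h0 : f.natDegree = 0
    · rw [eq_one_of_natDegree hf h0] at h1 ⊢
      rw [S_one, h1]
      simp
    · rw [h1, pow_one, Nat.cast_one, map_one] at h
      have h3 : ((X + 1) * f + 1 : (ZMod 2)[X]).natDegree = f.natDegree + 1 := by
        have h4 : ((X + 1) * f : (ZMod 2)[X]).natDegree = f.natDegree + 1 := by
          rw [natDegree_mul X_add_one_ne hf]
          have : (X + 1 : (ZMod 2)[X]).natDegree = 1 := natDegree_eq_of_degree_eq_some deg_X1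
          rw [this]; ring
        rw [natDegree_add_eq_left_of_natDegree_lt, h4]
        rw [natDegree_one, h4]; omega
      have h5 : S f ≠ 0 := by
        intro h4
        rw [h4, mul_zero] at h
        rw [← h] at h3
        simp at h3
      refine ⟨h5, ?_⟩
      rw [← h, natDegree_X_mul h5] at h3
      rw [h3, h1]

theorem S_iter_ne {f : (ZMod 2)[X]} (hf : f ≠ 0) (n : ℕ) :
    S^[n] f ≠ 0 ∧ (S^[n] f).natDegree + n = f.natDegree + odds n f := by
  induction n with
  | zero => simpa [odds] using hf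
  | succ n ih =>
    rw [Function.iterate_succ_apply']
    obtain ⟨h1, h2⟩ := S_ne_zero ih.1
    refine ⟨h1, ?_⟩
    simp only [odds]
    omega

end Pool.Agent.Q74.FC
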