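import Pool.Agent.Q74.FC.Worst

/-! # The Collatz map on `F_2[x]`: counting -/

set_option autoImplicit false

namespace Pool.Agent.Q74.FC

open Polynomial Finset

/-- the polynomials of degree less than `n` -/
noncomputable def L (n : ℕ) : Finset ((ZMod 2)[X]) := by
  classical
  exact (univ : Finset (Fin n → ZMod 2)).image (fun c => (((degreeLTEquiv (ZMod 2) n).symm c : degreeLT (ZMod 2) n) : (ZMod 2)[X]))

theorem mem_L {n : ℕ} {h : (ZMod 2)[X]} : h ∈ L n ↔ h.degree < (n : WithBot ℕ) := by
  classical
  unfold L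
  rw [mem_image]
  constructor
  · rintro ⟨c, _, rfl⟩
    exact mem_degreeLT.1 ((degreeLTEquiv (ZMod 2) n).symm c).2
  · intro hh
    refine ⟨degreeLTEquiv (ZMod 2) n ⟨h, mem_degreeLT.2 hh⟩, mem_univ _, ?_⟩
    rw [LinearEquiv.symm_apply_apply]

theorem card_L (n : ℕ) : (L n).card = 2 ^ n := by
  classical
  unfold L
  rw [card_image_of_injective, card_univ, Fintype.card_fun, ZMod.card, Fintype.card_fin]
  intro a b hab
  exact (degreeLTEquiv (ZMod 2) n).symm.injective (Subtype.ext hab)

/-- the polynomials of degree `d` -/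
noncomputable def D (d : ℕ) : Finset ((ZMod 2)[X]) := by
  classical
  exact (L d).image (fun h => X ^ d + h)

theorem card_D (d : ℕ) : (D d).card = 2 ^ d := by
  classical
  unfold D
  rw [card_image_of_injective, card_L]
  intro a b hab
  exact add_left_cancel hab

theorem mem_D {d : ℕ} {f : (ZMod 2)[X]} : f ∈ D d ↔ f.degree = (d : WithBot ℕ) := by
  classical
  unfold D
  rw [mem_image]
  constructor
  · rintro ⟨h, hh, rfl⟩
    rw [mem_L] at hh
    rw [degree_add_eq_left_of_degree_lt, degree_X_pow]
    rw [degree_X_pow]; exact hh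
  · intro hf
    refine ⟨f - X ^ d, ?_, by ring⟩
    rw [mem_L]
    have h0 : f ≠ 0 := by rintro rfl; simp at hf
    have h1 : f.leadingCoeff = 1 := by
      rcases zmod2 f.leadingCoeff with h | h
      · exact absurd (leadingCoeff_eq_zero.1 h) h0
      · exact h
    have h2 := degree_sub_lt_left (p := f) (q := X ^ d) (by rw [hf, degree_X_pow]) h0 (by rw [h1, leadingCoeff_X_pow])
    rwa [hf] at h2

theorem mem_D' {d : ℕ} {f : (ZMod 2)[X]} : f ∈ D d ↔ f ≠ 0 ∧ f.natDegree = d := by
  rw [mem_D]
  constructor
  · intro h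
    refine ⟨?_, natDegree_eq_of_degree_eq_some h⟩
    rintro rfl
    simp at h
  · rintro ⟨h0, h1⟩
    rw [degree_eq_natDegree h0, h1]

theorem card_le_of_diff {A : Finset ((ZMod 2)[X])} {m : ℕ}
    (h : ∀ f ∈ A, ∀ g ∈ A, (f - g).degree < (m : WithBot ℕ)) : A.card ≤ 2 ^ m := by
  classical
  rcases A.eq_empty_or_nonempty with rfl | ⟨g, hg⟩
  · simp
  · rw [← card_L m]
    apply card_le_card_of_injOn (fun f => f - g)
    · intro f hf
      rw [mem_coe, mem_L]
      exact h f hf g hg
    · intro f _ f' _ hff
      simpa using hff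

theorem odds_card (n : ℕ) (f : (ZMod 2)[X]) : odds n f = ((range n).filter (fun i => par (S^[i] f) = 1)).card := by
  induction n with
  | zero => simp [odds]
  | succ n ih =>
    rw [range_add_one, filter_insert]
    simp only [odds]
    rcases par_cases (S^[n] f) with ⟨h1, _⟩ | ⟨h1, _⟩
    · rw [if_neg (by rw [h1]; decide), h1, ih]; rfl
    · rw [if_pos h1, card_insert_of_notMem (by simp), h1, ih]

/-- exponential moment of the number of odd steps -/
theorem sum_three (d : ℕ) : ∑ f ∈ D d, 3 ^ odds d f ≤ 4 ^ d := by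
  classical
  have h1 : ∑ t ∈ (range d).powerset, 3 ^ t.card * 1 ^ ((range d).card - t.card) = (3 + 1 : ℕ) ^ (range d).card :=
    Finset.sum_pow_mul_eq_add_pow 3 1 (range d)
  simp only [one_pow, mul_one, card_range] at h1
  have h4 : (3 + 1 : ℕ) = 4 := rfl
  rw [h4] at h1
  rw [← h1]
  set F : (ZMod 2)[X] → Finset ℕ := fun f => (range d).filter (fun i => par (S^[i] f) = 1) with hF
  have hinj : Set.InjOn F (D d : Set ((ZMod 2)[X])) := by
    intro f hf g hg hfg
    rw [mem_coe] at hf hg
    have h2 : ∀ i < d, par (S^[i] f) = par (S^[i] g) := by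
      intro i hi
      have h3 : i ∈ F f ↔ i ∈ F g := by rw [hfg]
      simp only [hF, mem_filter, mem_range] at h3
      have a := par_le (S^[i] f)
      have b := par_le (S^[i] g)
      by_cases h5 : par (S^[i] f) = 1
      · rw [h5, (h3.1 ⟨hi, h5⟩).2]
      · by_cases h6 : par (S^[i] g) = 1
        · exact absurd (h3.2 ⟨hi, h6⟩).2 h5
        · omega
    have h3 := par_inj h2
    have h5 : (f - g).degree < (d : WithBot ℕ) := by
      rw [mem_D] at hf hg
      have h0 : f ≠ 0 := by rintro rfl; simp at hf
      have l1 : f.leadingCoeff = 1 := by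
        rcases zmod2 f.leadingCoeff with h | h
        · exact absurd (leadingCoeff_eq_zero.1 h) h0
        · exact h
      have h0' : g ≠ 0 := by rintro rfl; simp at hg
      have l2 : g.leadingCoeff = 1 := by
        rcases zmod2 g.leadingCoeff with h | h
        · exact absurd (leadingCoeff_eq_zero.1 h) h0'
        · exact h
      have h2 := degree_sub_lt_left (p := f) (q := g) (by rw [hf, hg]) h0 (by rw [l1, l2])
      rwa [hf] at h2
    by_contra hne
    have h6 : f - g ≠ 0 := sub_ne_zero.2 hne
    have h7 := natDegree_le_of_dvd h3 h6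
    rw [natDegree_X_pow] at h7
    rw [degree_eq_natDegree h6] at h5
    have h8 : (f - g).natDegree < d := by exact_mod_cast h5
    omega
  calc ∑ f ∈ D d, 3 ^ odds d f = ∑ f ∈ D d, 3 ^ (F f).card := by
        refine sum_congr rfl fun f _ => ?_
        rw [odds_card]
    _ = ∑ t ∈ (D d).image F, 3 ^ t.card := by
        rw [sum_image hinj]
    _ ≤ ∑ t ∈ (range d).powerset, 3 ^ t.card := by
        apply sum_le_sum_of_subset
        intro t ht
        obtain ⟨f, _, rfl⟩ := mem_image.1 ht
        rw [mem_powerset]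
        exact filter_subset _ _

open Classical in
/-- DOMINATION: at most `2^(d-a)` polynomials of degree `d` go to a given polynomial of degree `a` after
`n` accelerated steps. -/
theorem fibre (d n : ℕ) (g : (ZMod 2)[X]) (_ : g ≠ 0) :
    ((D d).filter (fun f => S^[n] f = g)).card ≤ 2 ^ (d - g.natDegree) := by
  apply card_le_of_diff
  intro f hf f' hf'
  rw [mem_filter, mem_D'] at hf hf'
  have h1 := (S_iter_ne hf.1.1 n).2
  have h2 := (S_iter_ne hf'.1.1 n).2
  rw [hf.2, hf.1.2] at h1
  rw [hf'.2, hf'.1.2] at h2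
  have h3 : odds n f = odds n f' := by omega
  have h4 := diff_degree (hf.2.trans hf'.2.symm) rfl h3.symm
  have h5 := odds_le n f
  have h6 : n - odds n f = d - g.natDegree := by omega
  rwa [h6] at h4

end Pool.Agent.Q74.FC
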