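import Pool.Agent.Q74.FC.Rec

/-! # The Collatz map on `F_2[x]`: the average stopping time is linear -/

set_option autoImplicit false

namespace Pool.Agent.Q74.FC

open Polynomial Finset Filter Topology

theorem stage_num {d : ℕ} (hd : 1 ≤ d) : d * 3 ^ (2 * Nat.log 2 d + 8) ≤ Nat.sqrt d * 4 ^ (2 * Nat.log 2 d + 8) := by
  set N := Nat.sqrt d with hN
  set l := Nat.log 2 d with hl
  have hN1 : 1 ≤ N := by
    rw [hN, Nat.le_sqrt]; simpa using hd
  have h1 : d < (N + 1) * (N + 1) := Nat.lt_succ_sqrt d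
  have h2 : d < 2 ^ (l + 1) := Nat.lt_pow_succ_log_self (by norm_num) d
  have h3 : N * N ≤ d := Nat.sqrt_le d
  have h4 : d ≤ 4 * (N * N) := by nlinarith
  have h5 : (4 * N * 3 ^ (2 * l + 8)) ^ 2 ≤ (4 ^ (2 * l + 8)) ^ 2 := by
    have e1 : (4 * N * 3 ^ (2 * l + 8)) ^ 2 = 16 * (N * N) * (3 ^ 16 * 81 ^ l) := by
      have : (3 : ℕ) ^ (2 * l + 8) = 9 ^ l * 3 ^ 8 := by rw [pow_add, pow_mul]; norm_num
      rw [this]
      have h81 : (81 : ℕ) ^ l = 9 ^ l * 9 ^ l := by rw [← mul_pow]; norm_num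
      rw [h81]; ring
    have e2 : ((4 : ℕ) ^ (2 * l + 8)) ^ 2 = 4 ^ 16 * 256 ^ l := by
      have : (4 : ℕ) ^ (2 * l + 8) = 16 ^ l * 4 ^ 8 := by rw [pow_add, pow_mul]; norm_num
      rw [this]
      have h81 : (256 : ℕ) ^ l = 16 ^ l * 16 ^ l := by rw [← mul_pow]; norm_num
      rw [h81]; ring
    rw [e1, e2]
    have h6 : N * N ≤ 2 * 2 ^ l := by rw [pow_succ] at h2; omega
    calc 16 * (N * N) * (3 ^ 16 * 81 ^ l) ≤ 16 * (2 * 2 ^ l) * (3 ^ 16 * 81 ^ l) := by
          apply Nat.mul_le_mul_right; omega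
      _ = 32 * 3 ^ 16 * 162 ^ l := by
          have h162 : (162 : ℕ) ^ l = 2 ^ l * 81 ^ l := by rw [← mul_pow]; norm_num
          rw [h162]; ring
      _ ≤ 4 ^ 16 * 256 ^ l := Nat.mul_le_mul (by norm_num) (Nat.pow_le_pow_left (by norm_num) l)
  have h7 : 4 * N * 3 ^ (2 * l + 8) ≤ 4 ^ (2 * l + 8) := by
    by_contra hc
    rw [not_le] at hc
    exact absurd h5 (not_le.2 (Nat.pow_lt_pow_left hc (by norm_num)))
  calc d * 3 ^ (2 * l + 8) ≤ 4 * (N * N) * 3 ^ (2 * l + 8) := Nat.mul_le_mul_right _ h4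
    _ = N * (4 * N * 3 ^ (2 * l + 8)) := by ring
    _ ≤ N * 4 ^ (2 * l + 8) := Nat.mul_le_mul_left _ h7

theorem asym : ∀ᶠ d : ℕ in atTop, q ^ (Nat.sqrt d) * ((d : ℝ) + 1) ^ (2 * Nat.log 2 d + 8) * (((d : ℝ) + 1) * (d + 2)) ≤ 1 := by
  have hq0 := q_pos
  have hq1 := q_lt
  set c : ℝ := -Real.log q with hc
  have hc0 : 0 < c := by rw [hc]; have := Real.log_neg hq0 hq1; linarith
  -- the logarithm is small
  have h1 : (Real.log) =o[atTop] fun x : ℝ => x ^ ((1 : ℝ) / 4) := isLittleO_log_rpow_atTop (by norm_num)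
  set ε : ℝ := √(c / 52) with hε
  have hε0 : 0 < ε := by rw [hε]; positivity
  have h2 := h1.def hε0
  have h3 : Tendsto (fun d : ℕ => ((d : ℝ) + 2)) atTop atTop :=
    tendsto_atTop_add_const_right _ _ tendsto_natCast_atTop_atTop
  filter_upwards [h3.eventually h2, eventually_ge_atTop 100] with d hd hd100
  have hd0 : (100 : ℝ) ≤ d := by exact_mod_cast hd100
  set D : ℝ := (d : ℝ) + 2 with hD
  have hlog : 0 ≤ Real.log D := Real.log_nonneg (by linarith)
  rw [Real.norm_of_nonneg hlog, Real.norm_of_nonneg (by positivity)] at hd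
  set l := Nat.log 2 d with hl
  set N := Nat.sqrt d with hN
  have hNs : √(d : ℝ) ≤ N + 1 := by
    rw [Real.sqrt_le_left (by positivity)]
    have h : d < (N + 1) * (N + 1) := Nat.lt_succ_sqrt d
    have h' : (d : ℝ) ≤ ((N : ℝ) + 1) * (N + 1) := by exact_mod_cast h.le
    nlinarith
  have hN1 : √D / 2 ≤ N := by
    have e1 : √D ≤ √(d : ℝ) + 1 := by
      rw [Real.sqrt_le_left (by positivity)]
      have := Real.sq_sqrt (show (0 : ℝ) ≤ d by linarith)
      have h4 : (10 : ℝ) ≤ √(d : ℝ) := by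
        rw [Real.le_sqrt (by norm_num) (by linarith)]; norm_num; linarith
      nlinarith
    have h4 : (10 : ℝ) ≤ √(d : ℝ) := by
      rw [Real.le_sqrt (by norm_num) (by linarith)]; norm_num; linarith
    linarith
  have hl1 : (l : ℝ) * Real.log 2 ≤ Real.log D := by
    rw [← Real.log_pow]
    apply Real.log_le_log (by positivity)
    have : 2 ^ l ≤ d := Nat.pow_log_le_self 2 (by omega)
    have h' : (2 : ℝ) ^ l ≤ d := by exact_mod_cast this
    linarith
  have hl2 := Real.log_two_gt_d9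
  have hlD : 1 ≤ Real.log D := by
    rw [Real.le_log_iff_exp_le (by linarith)]
    have := Real.exp_one_lt_d9
    linarith
  have hk : ((2 * l + 8 + 2 : ℕ) : ℝ) ≤ 13 * Real.log D := by
    push_cast
    nlinarith
  -- logarithm of the left side
  have hD0 : 0 < D := by linarith
  have hle : q ^ N * ((d : ℝ) + 1) ^ (2 * l + 8) * (((d : ℝ) + 1) * (d + 2)) ≤ q ^ N * D ^ (2 * l + 8 + 2) := by
    have e : D ^ (2 * l + 8 + 2) = D ^ (2 * l + 8) * (D * D) := by ring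
    rw [e, ← mul_assoc (q ^ N)]
    apply mul_le_mul
    · apply mul_le_mul_of_nonneg_left _ (by positivity)
      apply pow_le_pow_left₀ (by positivity)
      linarith
    · apply mul_le_mul <;> linarith
    · positivity
    · positivity
  refine hle.trans ?_
  rw [← Real.log_nonpos_iff (by positivity), Real.log_mul (by positivity) (by positivity), Real.log_pow, Real.log_pow]
  have h5 : ((2 * l + 8 + 2 : ℕ) : ℝ) * Real.log D ≤ 13 * (Real.log D * Real.log D) := by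
    have := mul_le_mul_of_nonneg_right hk hlog
    linarith
  have h6 : Real.log D * Real.log D ≤ ε ^ 2 * √D := by
    have e1 : (D ^ ((1 : ℝ) / 4)) * (D ^ ((1 : ℝ) / 4)) = √D := by
      rw [← Real.rpow_add hD0, Real.sqrt_eq_rpow]; norm_num
    calc Real.log D * Real.log D ≤ (ε * D ^ ((1 : ℝ) / 4)) * (ε * D ^ ((1 : ℝ) / 4)) :=
          mul_le_mul hd hd hlog (by positivity)
      _ = ε ^ 2 * (D ^ ((1 : ℝ) / 4) * D ^ ((1 : ℝ) / 4)) := by ring
      _ = ε ^ 2 * √D := by rw [e1]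
  have h7 : ε ^ 2 = c / 52 := by rw [hε, Real.sq_sqrt (by positivity)]
  rw [h7] at h6
  have h8 : (N : ℝ) * Real.log q ≤ √D / 2 * Real.log q := by
    apply mul_le_mul_of_nonpos_right hN1
    exact (Real.log_neg hq0 hq1).le
  have h9 : √D / 2 * Real.log q = -(c * √D / 2) := by rw [hc]; ring
  have h10 : 0 ≤ √D := Real.sqrt_nonneg _
  have h11 : 0 ≤ c * √D := by positivity
  have h12 : c / 52 * √D = c * √D / 52 := by ring
  rw [h12] at h6
  linarith

/-- THE AVERAGE IS LINEAR -/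
theorem main : ∃ d₀ : ℕ, ∀ d : ℕ, d₀ ≤ d → (d : ℝ) ≤ (∑ f ∈ D d, (tm f : ℝ)) / 2 ^ d ∧
    (∑ f ∈ D d, (tm f : ℝ)) / 2 ^ d ≤ 15 * d := by
  obtain ⟨d₀, h⟩ := eventually_atTop.1 asym
  refine ⟨d₀ + 3, fun d hd => ⟨?_, ?_⟩⟩
  · rw [le_div_iff₀ (by positivity)]
    have h1 : ∑ f ∈ D d, (d : ℝ) ≤ ∑ f ∈ D d, (tm f : ℝ) := by
      refine sum_le_sum fun f hf => ?_
      have h2 := le_tm (mem_D'.1 hf).1
      rw [(mem_D'.1 hf).2] at h2
      exact_mod_cast h2
    rw [sum_const, card_D, nsmul_eq_mul] at h1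
    push_cast at h1
    linarith
  · have h1 := h d (by omega)
    have h2 := B_stage (Nat.sqrt d) d _ d le_rfl (stage_num (show 1 ≤ d by omega))
    have h3 := avg_le ((Nat.sqrt d + 1) * (Nat.sqrt d + 2)) d
    have h4 : (((Nat.sqrt d + 1) * (Nat.sqrt d + 2) : ℕ) : ℝ) ≤ 6 * d := by
      have e1 : Nat.sqrt d * Nat.sqrt d ≤ d := Nat.sqrt_le d
      have e2 : 1 ≤ Nat.sqrt d := by rw [Nat.le_sqrt]; omega
      exact_mod_cast (by nlinarith : (Nat.sqrt d + 1) * (Nat.sqrt d + 2) ≤ 6 * d)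
    have h5 : B ((Nat.sqrt d + 1) * (Nat.sqrt d + 2)) d * (((d : ℝ) + 1) * (d + 2)) ≤ 1 :=
      (mul_le_mul_of_nonneg_right h2 (by positivity)).trans h1
    have h6 : (3 : ℝ) ≤ d := by exact_mod_cast (by omega : 3 ≤ d)
    linarith

end Pool.Agent.Q74.FC
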