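import Pool.Agent.Q74.FC.Count

/-! # The Collatz map on `F_2[x]`: the recursion for the exceptional sets -/

set_option autoImplicit false

namespace Pool.Agent.Q74.FC

open Polynomial Finset

open Classical in
/-- exceptional polynomials -/
noncomputable def Bad (M d : ℕ) : Finset ((ZMod 2)[X]) := (D d).filter (fun f => 8 * d + M < tm f)

open Classical in
/-- polynomials of degree `d` with few divisions -/
noncomputable def Dev (d : ℕ) : Finset ((ZMod 2)[X]) := (D d).filter (fun f => 3 * d ≤ 4 * odds d f)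

/-- `2 / 3^(3/4)` -/
noncomputable def q : ℝ := 2 / (3 : ℝ) ^ ((3 : ℝ) / 4)

theorem q_pos : 0 < q := by unfold q; positivity

theorem q_lt : q < 1 := by
  unfold q
  rw [div_lt_one (by positivity)]
  have h : (2 : ℝ) = ((2 : ℝ) ^ (4 : ℝ)) ^ ((1 : ℝ) / 4) := by
    rw [← Real.rpow_mul (by norm_num)]; norm_num
  have h' : (3 : ℝ) ^ ((3 : ℝ) / 4) = ((3 : ℝ) ^ (3 : ℝ)) ^ ((1 : ℝ) / 4) := by
    rw [← Real.rpow_mul (by norm_num)]; norm_num
  rw [h, h']
  apply Real.rpow_lt_rpow (by positivity) _ (by norm_num)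
  norm_num

theorem dev_le (d : ℕ) : ((Dev d).card : ℝ) / 2 ^ d ≤ q ^ d := by
  classical
  have h1 := sum_three d
  have h2 : ∑ f ∈ Dev d, (3 : ℝ) ^ ((3 : ℝ) / 4 * d) ≤ ∑ f ∈ D d, (3 : ℝ) ^ odds d f := by
    refine (sum_le_sum (g := fun f => (3 : ℝ) ^ odds d f) fun f hf => ?_).trans
      (sum_le_sum_of_subset_of_nonneg (filter_subset _ _) fun f _ _ => by positivity)
    unfold Dev at hf
    rw [mem_filter] at hf
    rw [← Real.rpow_natCast]
    apply Real.rpow_le_rpow_of_exponent_le (by norm_num)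
    have : (3 : ℝ) * d ≤ 4 * odds d f := by exact_mod_cast hf.2
    linarith
  have h3 : ∑ f ∈ D d, (3 : ℝ) ^ odds d f ≤ 4 ^ d := by exact_mod_cast h1
  rw [sum_const, nsmul_eq_mul] at h2
  have h4 : ((Dev d).card : ℝ) * (3 : ℝ) ^ ((3 : ℝ) / 4 * d) ≤ 4 ^ d := h2.trans h3
  have h5 : q ^ d = 4 ^ d / (3 : ℝ) ^ ((3 : ℝ) / 4 * d) / 2 ^ d := by
    unfold q
    rw [div_pow, Real.rpow_mul (by norm_num), Real.rpow_natCast]
    have : (4 : ℝ) ^ d = 2 ^ d * 2 ^ d := by rw [← mul_pow]; norm_num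
    rw [this]
    field_simp
  rw [h5]
  apply div_le_div_of_nonneg_right _ (by positivity)
  rw [le_div_iff₀ (by positivity)]
  exact h4

theorem bad_rec (M d : ℕ) : (Bad M d).card ≤ (Dev d).card +
    ∑ a ∈ (range d).filter (fun a => 4 * a < 3 * d), (Bad M a).card * 2 ^ (d - a) := by
  classical
  rcases Nat.eq_zero_or_pos d with rfl | hd
  · have : Bad M 0 ⊆ Dev 0 := by
      intro f hf
      unfold Bad at hf
      unfold Dev
      rw [mem_filter] at hf ⊢
      exact ⟨hf.1, by simp⟩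
    exact (card_le_card this).trans (Nat.le_add_right _ _)
  have hsub : Bad M d ⊆ Dev d ∪ ((range d).filter (fun a => 4 * a < 3 * d)).biUnion
      (fun a => (Bad M a).biUnion (fun g => (D d).filter (fun f => S^[d] f = g))) := by
    intro f hf
    unfold Bad at hf
    rw [mem_filter] at hf
    rw [mem_union]
    by_cases h : 3 * d ≤ 4 * odds d f
    · left
      unfold Dev
      rw [mem_filter]
      exact ⟨hf.1, h⟩
    · right
      have h1 := mem_D'.1 hf.1
      obtain ⟨h2, h3⟩ := S_iter_ne h1.1 d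
      have h4 : (S^[d] f).natDegree = odds d f := by omega
      have h5 := tm_step h1.1 d
      rw [mem_biUnion]
      refine ⟨odds d f, ?_, ?_⟩
      · rw [mem_filter, mem_range]
        constructor <;> omega
      · rw [mem_biUnion]
        refine ⟨S^[d] f, ?_, ?_⟩
        · unfold Bad
          rw [mem_filter, mem_D']
          refine ⟨⟨h2, h4⟩, ?_⟩
          have := hf.2
          omega
        · rw [mem_filter]
          exact ⟨hf.1, rfl⟩
  refine (card_le_card hsub).trans ((card_union_le _ _).trans (Nat.add_le_add_left ?_ _))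
  refine card_biUnion_le.trans (sum_le_sum fun a ha => ?_)
  refine card_biUnion_le.trans ?_
  rw [card_eq_sum_ones, sum_mul]
  refine sum_le_sum fun g hg => ?_
  rw [one_mul]
  unfold Bad at hg
  rw [mem_filter, mem_D'] at hg
  have h := fibre d d g hg.1.1
  rw [hg.1.2] at h
  convert h

/-- proportion of the exceptional polynomials -/
noncomputable def B (M d : ℕ) : ℝ := ((Bad M d).card : ℝ) / 2 ^ d

theorem B_nonneg (M d : ℕ) : 0 ≤ B M d := by unfold B; positivity

theorem B_rec (M d : ℕ) : B M d ≤ q ^ d + ∑ a ∈ (range d).filter (fun a => 4 * a < 3 * d), B M a := by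
  have h1 := bad_rec M d
  have h2 : ((Bad M d).card : ℝ) ≤ (Dev d).card +
      ∑ a ∈ (range d).filter (fun a => 4 * a < 3 * d), ((Bad M a).card : ℝ) * 2 ^ (d - a) := by exact_mod_cast h1
  unfold B
  have h3 : ((Bad M d).card : ℝ) / 2 ^ d ≤ ((Dev d).card : ℝ) / 2 ^ d +
      (∑ a ∈ (range d).filter (fun a => 4 * a < 3 * d), ((Bad M a).card : ℝ) * 2 ^ (d - a)) / 2 ^ d := by
    rw [← add_div]
    exact div_le_div_of_nonneg_right h2 (by positivity)
  refine h3.trans (add_le_add (dev_le d) ?_)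
  rw [sum_div]
  refine sum_le_sum fun a ha => ?_
  rw [mem_filter, mem_range] at ha
  have : (2 : ℝ) ^ d = 2 ^ (d - a) * 2 ^ a := by rw [← pow_add]; congr 1; omega
  rw [this, mul_div_mul_comm]
  have h4 : (2 : ℝ) ^ (d - a) ≠ 0 := by positivity
  field_simp
  exact le_refl _

theorem B_zero {N d : ℕ} (h : d ≤ N) : B ((N + 1) * (N + 2)) d = 0 := by
  classical
  unfold B
  have : Bad ((N + 1) * (N + 2)) d = ∅ := by
    rw [eq_empty_iff_forall_notMem]
    intro f hf
    unfold Bad at hf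
    rw [mem_filter, mem_D'] at hf
    have h1 := tm_le hf.1.1
    rw [hf.1.2] at h1
    have h2 : (d + 1) * (d + 2) ≤ (N + 1) * (N + 2) := Nat.mul_le_mul (by omega) (by omega)
    have := hf.2
    omega
  rw [this]
  simp

theorem B_stage (N d k : ℕ) : ∀ a ≤ d, a * 3 ^ k ≤ N * 4 ^ k →
    B ((N + 1) * (N + 2)) a ≤ q ^ N * ((d : ℝ) + 1) ^ k := by
  have hq0 := q_pos
  have hq1 := q_lt
  induction k with
  | zero =>
    intro a _ h
    rw [pow_zero, pow_zero, mul_one, mul_one] at h
    rw [B_zero h]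
    positivity
  | succ k ih =>
    intro a ha h
    rcases le_or_gt a N with h1 | h1
    · rw [B_zero h1]
      positivity
    · refine (B_rec _ a).trans ?_
      have h2 : q ^ a ≤ q ^ N := pow_le_pow_of_le_one hq0.le hq1.le h1.le
      have h3 : ∑ b ∈ (range a).filter (fun b => 4 * b < 3 * a), B ((N + 1) * (N + 2)) b ≤
          ∑ b ∈ (range a).filter (fun b => 4 * b < 3 * a), q ^ N * ((d : ℝ) + 1) ^ k := by
        refine sum_le_sum fun b hb => ?_
        rw [mem_filter, mem_range] at hb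
        apply ih b (by omega)
        have h4 : 4 * b * 3 ^ k ≤ 3 * a * 3 ^ k := Nat.mul_le_mul_right _ hb.2.le
        have h5 : 3 * a * 3 ^ k = a * 3 ^ (k + 1) := by ring
        have h6 : N * 4 ^ (k + 1) = 4 * (N * 4 ^ k) := by ring
        have h7 : 4 * b * 3 ^ k = 4 * (b * 3 ^ k) := by ring
        omega
      rw [sum_const, nsmul_eq_mul] at h3
      have h4 : ((((range a).filter (fun b => 4 * b < 3 * a)).card : ℕ) : ℝ) ≤ d := by
        have : ((range a).filter (fun b => 4 * b < 3 * a)).card ≤ a := by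
          refine (card_filter_le _ _).trans ?_
          rw [card_range]
        exact_mod_cast this.trans ha
      have hd0 : (0 : ℝ) ≤ d := Nat.cast_nonneg d
      have h5 : (1 : ℝ) ≤ ((d : ℝ) + 1) ^ k := one_le_pow₀ (by linarith)
      have h6 : 0 < q ^ N := by positivity
      calc q ^ a + ∑ b ∈ (range a).filter (fun b => 4 * b < 3 * a), B ((N + 1) * (N + 2)) b
          ≤ q ^ N + d * (q ^ N * ((d : ℝ) + 1) ^ k) := by
            refine add_le_add h2 (h3.trans (mul_le_mul_of_nonneg_right h4 (by positivity)))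
        _ ≤ q ^ N * ((d : ℝ) + 1) ^ k + d * (q ^ N * ((d : ℝ) + 1) ^ k) := by
            have := mul_le_mul_of_nonneg_left h5 h6.le
            linarith
        _ = q ^ N * ((d : ℝ) + 1) ^ (k + 1) := by ring

theorem avg_le (M d : ℕ) : (∑ f ∈ D d, (tm f : ℝ)) / 2 ^ d ≤
    8 * d + M + B M d * (((d : ℝ) + 1) * (d + 2)) := by
  classical
  have h1 : ∑ f ∈ D d, (tm f : ℝ) ≤ ∑ f ∈ D d, ((8 * d + M : ℝ) + if 8 * d + M < tm f then ((d : ℝ) + 1) * (d + 2) else 0) := by
    refine sum_le_sum fun f hf => ?_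
    split_ifs with h
    · have h2 := tm_le (mem_D'.1 hf).1
      rw [(mem_D'.1 hf).2] at h2
      have h3 : (tm f : ℝ) ≤ ((d : ℝ) + 1) * (d + 2) := by exact_mod_cast h2
      have h4 : (0 : ℝ) ≤ 8 * d + M := by positivity
      linarith
    · rw [not_lt] at h
      have h3 : (tm f : ℝ) ≤ 8 * d + M := by exact_mod_cast h
      linarith
  rw [sum_add_distrib, sum_const, card_D, nsmul_eq_mul, ← sum_filter, sum_const, nsmul_eq_mul] at h1
  have h2 : (((2 ^ d : ℕ)) : ℝ) = 2 ^ d := by push_cast; ring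
  rw [h2] at h1
  have h5 : (0 : ℝ) < 2 ^ d := by positivity
  have h6 : (D d).filter (fun f => 8 * d + M < tm f) = Bad M d := rfl
  rw [h6] at h1
  rw [div_le_iff₀ h5]
  unfold B
  have h7 : (8 * (d : ℝ) + M + ((Bad M d).card : ℝ) / 2 ^ d * (((d : ℝ) + 1) * (d + 2))) * 2 ^ d =
      2 ^ d * (8 * d + M) + ((Bad M d).card : ℝ) * (((d : ℝ) + 1) * (d + 2)) := by
    field_simp
  rw [h7]
  exact h1

end Pool.Agent.Q74.FC
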