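import Pool.Agent.Q74.FC.Base

/-! # The Collatz map on `F_2[x]`: quadratic worst case bound -/

set_option autoImplicit false

namespace Pool.Agent.Q74.FC

open Polynomial Finset

/-- the stopping time -/
noncomputable def tm (f : (ZMod 2)[X]) : ℕ := sInf {k : ℕ | T^[k] f = 1}

theorem all_odd {f : (ZMod 2)[X]} {n : ℕ} (h : ∀ i < n, par (S^[i] f) = 1) : X ^ n ∣ f - 1 := by
  apply par_inj
  intro i hi
  rw [h i hi]
  have : ∀ i : ℕ, S^[i] (1 : (ZMod 2)[X]) = 1 := by
    intro i
    induction i with
    | zero => rfl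
    | succ i ih => rw [Function.iterate_succ_apply', ih, S_one]
  rw [this i]
  unfold par; simp

/-- an even term of the orbit appears after at most `natDegree f` accelerated steps -/
theorem exists_even {f : (ZMod 2)[X]} (h0 : f.natDegree ≠ 0) :
    ∃ j ≤ f.natDegree, par (S^[j] f) = 0 ∧ ∀ i < j, par (S^[i] f) = 1 := by
  classical
  have hex : ∃ j, par (S^[j] f) = 0 := by
    by_contra hcon
    push Not at hcon
    have h1 : ∀ i < f.natDegree + 1, par (S^[i] f) = 1 := by
      intro i _
      have := hcon i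
      have := par_le (S^[i] f)
      omega
    have h2 := all_odd h1
    have h3 : f - 1 = 0 := by
      by_contra hne
      have h4 := natDegree_le_of_dvd h2 hne
      rw [natDegree_X_pow] at h4
      have h5 : (f - 1 : (ZMod 2)[X]).natDegree ≤ f.natDegree := by
        refine (natDegree_sub_le _ _).trans ?_
        rw [natDegree_one]; simp
      omega
    rw [sub_eq_zero] at h3
    rw [h3, natDegree_one] at h0
    exact h0 rfl
  have hmin : ∀ i < Nat.find hex, par (S^[i] f) = 1 := by
    intro i hi
    have h1 := Nat.find_min hex hi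
    have := par_le (S^[i] f)
    omega
  refine ⟨Nat.find hex, ?_, Nat.find_spec hex, hmin⟩
  by_contra hlt
  rw [not_le] at hlt
  have h2 := all_odd (f := f) (n := f.natDegree + 1) (fun i hi => hmin i (by omega))
  have h3 : f - 1 = 0 := by
    by_contra hne
    have h4 := natDegree_le_of_dvd h2 hne
    rw [natDegree_X_pow] at h4
    have h5 : (f - 1 : (ZMod 2)[X]).natDegree ≤ f.natDegree := by
      refine (natDegree_sub_le _ _).trans ?_
      rw [natDegree_one]; simp
    omega
  rw [sub_eq_zero] at h3
  rw [h3, natDegree_one] at h0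
  exact h0 rfl

theorem odds_all {f : (ZMod 2)[X]} {n : ℕ} (h : ∀ i < n, par (S^[i] f) = 1) : odds n f = n := by
  induction n with
  | zero => rfl
  | succ n ih => simp only [odds]; rw [ih (fun i hi => h i (by omega)), h n (by omega)]

/-- worst case bound -/
theorem reaches (n : ℕ) : ∀ f : (ZMod 2)[X], f ≠ 0 → f.natDegree = n →
    ∃ k ≤ (n + 1) * (n + 2), T^[k] f = 1 := by
  induction n with
  | zero =>
    intro f hf h
    exact ⟨0, by simp, eq_one_of_natDegree hf h⟩
  | succ n ih =>
    intro f hf h
    obtain ⟨j, hj1, hj2, hj3⟩ := exists_even (f := f) (by omega)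
    have h1 := odds_all hj3
    obtain ⟨h2, h3⟩ := S_iter_ne hf (j + 1)
    have h4 : odds (j + 1) f = j := by simp only [odds]; rw [h1, hj2]; rfl
    obtain ⟨k, hk1, hk2⟩ := ih (S^[j + 1] f) h2 (by omega)
    refine ⟨k + (j + 1 + odds (j + 1) f), ?_, ?_⟩
    · rw [h4]
      nlinarith
    · rw [Function.iterate_add_apply, iter_T, hk2]

theorem tm_le {f : (ZMod 2)[X]} (hf : f ≠ 0) : tm f ≤ (f.natDegree + 1) * (f.natDegree + 2) := by
  obtain ⟨k, hk1, hk2⟩ := reaches _ f hf rfl
  exact (Nat.sInf_le hk2).trans hk1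

theorem tm_spec {f : (ZMod 2)[X]} (hf : f ≠ 0) : T^[tm f] f = 1 := by
  obtain ⟨k, _, hk2⟩ := reaches _ f hf rfl
  exact Nat.sInf_mem (s := {k : ℕ | T^[k] f = 1}) ⟨k, hk2⟩

theorem tm_step {f : (ZMod 2)[X]} (hf : f ≠ 0) (n : ℕ) : tm f ≤ n + odds n f + tm (S^[n] f) := by
  apply Nat.sInf_le
  change T^[n + odds n f + tm (S^[n] f)] f = 1
  rw [add_comm, Function.iterate_add_apply, iter_T]
  exact tm_spec (S_iter_ne hf n).1

theorem T_natDegree {f : (ZMod 2)[X]} : f.natDegree ≤ (T f).natDegree + 1 := by
  unfold T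
  split_ifs with h
  · by_cases hf : f.natDegree = 0
    · omega
    · have hf0 : f ≠ 0 := by rintro rfl; simp at hf
      have h4 : ((X + 1) * f : (ZMod 2)[X]).natDegree = f.natDegree + 1 := by
        rw [natDegree_mul X_add_one_ne hf0]
        have : (X + 1 : (ZMod 2)[X]).natDegree = 1 := natDegree_eq_of_degree_eq_some deg_X1
        rw [this]; ring
      rw [natDegree_add_eq_left_of_natDegree_lt]
      · rw [h4]; omega
      · rw [natDegree_one, h4]; omega
  · rw [natDegree_divX_eq_natDegree_tsub_one]; omega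

/-- each step lowers the degree by at most one -/
theorem le_tm {f : (ZMod 2)[X]} (hf : f ≠ 0) : f.natDegree ≤ tm f := by
  have h : ∀ k : ℕ, f.natDegree ≤ (T^[k] f).natDegree + k := by
    intro k
    induction k with
    | zero => simp
    | succ k ih =>
      rw [Function.iterate_succ_apply']
      have := T_natDegree (f := T^[k] f)
      omega
  have h1 := h (tm f)
  rw [tm_spec hf, natDegree_one] at h1
  omega

end Pool.Agent.Q74.FC
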